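import Pool.Agent.Lib.MP_b664fd_ag.H10Geo

open Pointwise Pool.Agent.Lib.MP_b664fd_ag

theorem Pool.Agent.Results.MP_b664fd_ag.LongEdges.result (K : Type) [Field K] (d : ℕ)
    (S : Finset (Fin d → ℤ)) (hS : S.Nonempty) (P : Set (Fin d → ℝ))
    (hP : P = convexHull ℝ (toR '' (S : Set (Fin d → ℤ))))
    (hs : SmoothLong P ((d + 1) ^ 2 * (d + 2))) :
    ToricKoszul K {x : Fin d → ℤ | toR x ∈ P} ∧
    ∀ (k : ℕ) (B : Fin k → Finset (Fin d → ℤ)),
      (∀ j, ∀ v ∈ P.extremePoints ℝ, ∃ w ∈ B j, ∀ φ : (Fin d → ℝ) →L[ℝ] ℝ,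
        (∀ x ∈ P, φ v ≤ φ x) → ∀ y ∈ B j, φ (toR w) ≤ φ (toR y)) →
      ToricKoszul K {z : Fin (d + k) → ℤ | ∃ j x,
        toR x ∈ P + convexHull ℝ (toR '' (B j : Set (Fin d → ℤ))) ∧
          z = Fin.append x (Pi.single j 1)} := by
  subst hP
  refine ⟨?_, fun k B hB => cayley_koszul K hS hs B hB
    (AddMonoidHom.mk' (fun x => Fin.append x.1 x.2) fun x y => funext fun i => by
      refine Fin.addCases (fun i => ?_) (fun i => ?_) i <;> simp) fun x y h _ => ?_⟩
  · convert cayley_koszul K hS hs (J := Unit) (fun _ => {0}) (fun _ _ _ => ⟨0, by simp, by simp⟩)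
      (AddMonoidHom.fst _ _) fun x y h1 h2 =>
        Prod.ext h1 (funext fun _ => by simpa [dg_apply] using h2) using 2
    have : toR (0 : Fin d → ℤ) = 0 := funext fun _ => by simp [toR]
    simp [this]
  · exact Prod.ext (funext fun i => by simpa using congrFun h (Fin.castAdd k i))
      (funext fun i => by simpa using congrFun h (Fin.natAdd d i))
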