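import Pool.Agent.Lib.MP_b664fd_ag.Nest
import Pool.Agent.Lib.MP_b664fd_ag.Nested

open Finset Pool.Agent.Lib.MP_b664fd_ag

theorem Pool.Agent.Results.MP_b664fd_ag.Nestohedra.result (K : Type) [Field K] (n : ℕ)
    (B : Set (Finset (Fin n))) (h0 : ∅ ∉ B) (h1 : ∀ i, {i} ∈ B)
    (h2 : ∀ S ∈ B, ∀ T ∈ B, ¬Disjoint S T → S ∪ T ∈ B)
    (h3 : ∀ S ∈ B, ∀ T ∈ B, ¬Disjoint S T → ¬S ⊆ T → ¬T ⊆ S → ∃ v ∈ T, v ∉ S ∧ insert v S ∈ B)
    (z : Finset (Fin n) → ℤ) (P : Set (Fin n → ℝ))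
    (hP : P = {x : Fin n → ℝ | ∑ i, x i = (z univ : ℝ) ∧ ∀ T ∈ B, (z T : ℝ) ≤ ∑ i ∈ T, x i})
    (hN : ∀ N : Finset (Finset (Fin n)), (∀ T ∈ N, T ∈ B) →
      ((∃ x ∈ P, ∀ T ∈ N, ∑ i ∈ T, x i = z T) ↔ Nested B N))
    (lo hi : Fin n → ℤ) :
    ToricKoszul K {x : Fin n → ℤ | (fun i => (x i : ℝ)) ∈ P ∧ ∀ i, lo i ≤ x i ∧ x i ≤ hi i} := by
  have e0 : ∀ S ∈ B, ∀ T, S ⊆ T → ¬Disjoint S T := fun S hS T h h' =>
    h0 (eq_bot_iff.2 (h' le_rfl h) ▸ hS : (⊥ : Finset (Fin n)) ∈ B)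
  refine nest_koszul (B := (· ∈ B)) (z := z) K h1 (fun S T hS hT => h2 S hS T hT)
    (fun S T hS hT => h3 S hS T hT) (fun x => by rw [hP]; rfl) (fun W T T' h4 h5 h6 h7 => ?_)
    (fun x hx S T hS hT h4 h5 => ?_) lo hi
  · have e1 : ∀ C ∈ insert T' (insert T (comps (· ∈ B) W)), C ∈ B := by
      simp only [forall_mem_insert]
      exact ⟨h7, h6, fun C hC => (mem_comps.1 hC).1.1⟩
    have e2 : ∀ C ∈ insert T (comps (· ∈ B) W), C ⊆ T := by
      simp only [forall_mem_insert]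
      exact ⟨subset_rfl, fun C hC => (mem_comps.1 hC).1.2.trans h4⟩
    have e3 : ∀ C ∈ insert T' (insert T (comps (· ∈ B) W)), C ∉ comps (· ∈ B) W →
        ∀ D ∈ insert T' (insert T (comps (· ∈ B) W)), C ⊆ D ∨ D ⊆ C := fun C hC h D hD => by
      rcases mem_insert.1 hD with h8 | h8 <;> rcases mem_insert.1 hC with h9 | h9
      · exact Or.inl (h9.trans h8.symm).subset
      · exact Or.inl (h8 ▸ (e2 C h9).trans h5)
      · exact Or.inr (h9 ▸ (e2 D h8).trans h5)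
      · exact Or.inr ((mem_insert.1 h9).resolve_right h ▸ e2 D h8)
    obtain ⟨x, hx, h8⟩ := (hN _ e1).2 ⟨fun C hC D hD => by
      by_cases h8 : C ∈ comps (· ∈ B) W
      · by_cases h9 : D ∈ comps (· ∈ B) W
        · by_cases h10 : Disjoint C D
          · exact Or.inr (Or.inr h10)
          · exact Or.inl (comps_eq h8 h9 (h2 C (e1 C hC) D (e1 D hD) h10)).subset
        · exact (e3 D hD h9 C hC).symm.imp_right Or.inl
      · exact (e3 C hC h8 D hD).imp_right Or.inl, fun M h8 h9 h10 h11 => by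
      have e4 : ∀ C ∈ M, C ∈ comps (· ∈ B) W := fun C hC => not_not.1 fun h => by
        obtain ⟨D, hD, h12⟩ := exists_mem_ne h9 C
        rcases e3 C (h8 hC) h D (h8 hD) with h13 | h13
        · exact e0 C (e1 C (h8 hC)) D h13 (h10 C hC D hD h12.symm)
        · exact e0 D (e1 D (h8 hD)) C h13 (h10 D hD C hC h12)
      obtain ⟨C, hC, D, hD, h12⟩ := one_lt_card.1 h9
      exact e0 D (e1 D (h8 hD)) C ((subset_biUnion_of_mem id hD).trans ((mem_comps.1 (e4 C hC)).2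
        ⟨h11, biUnion_subset.2 fun E hE => (mem_comps.1 (e4 E hE)).1.2⟩
          (subset_biUnion_of_mem id hC))) (h10 D hD C hC h12.symm)⟩
    simp only [forall_mem_insert] at h8
    exact ⟨x, hx, h8.2.2, h8.2.1, h8.1⟩
  · obtain ⟨h6, h7⟩ := (hN {S, T} (by simp [hS, hT])).1 ⟨x, hx, by simp [h4, h5]⟩
    refine (h6 S (by simp) T (by simp)).imp_right (Or.imp_right fun h8 h9 => ?_)
    have h10 : S ≠ T := fun h => e0 S hS T h.subset h8
    exact h7 _ subset_rfl (card_pair h10).ge (by simp [h8, h8.symm]) (by simpa using h9)
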