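import Pool.Agent.Lib.MP_b664fd_ag.TypeB

open Finset Pool.Agent.Lib.MP_b664fd_ag

theorem Pool.Agent.Results.MP_b664fd_ag.TypeB.result (K : Type) [Field K] (n : ℕ)
    (ρ : (Fin n → SignType) → ℤ) (P : Set (Fin n → ℝ))
    (hP : P = {x | ∀ a : Fin n → SignType, ∑ i, (a i : ℝ) * x i ≤ ρ a})
    (hN : ∀ N : Set (Fin n → SignType), (∃ x ∈ P, ∀ a ∈ N, ∑ i, (a i : ℝ) * x i = ρ a) ↔
      ∀ a ∈ N, ∀ b ∈ N, (∀ i, a i = 0 ∨ a i = b i) ∨ ∀ i, b i = 0 ∨ b i = a i)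
    (lo hi : Fin n → ℤ) :
    ToricKoszul K {x : Fin n → ℤ | (fun i => (x i : ℝ)) ∈ P ∧ ∀ i, lo i ≤ x i ∧ x i ≤ hi i} := by
  refine typeB_koszul (ρ := ρ) K (fun x => by rw [hP]; rfl) (fun a b h => ?_)
    (fun x hx a b h1 h2 => (hN {a, b}).1 ⟨x, hx, by simp [h1, h2]⟩ a (by simp) b (by simp)) lo hi
  obtain ⟨x, hx, h1⟩ := (hN {a, b}).2 (by simp [h])
  exact ⟨x, hx, h1 a (by simp), h1 b (by simp)⟩
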